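import Mathlib

set_option autoImplicit false

/-!
# The refined Quillen conjecture: not every class is detected on finite subgroups

Let `K` be a number field, `l` a prime number, `S` a set of finite places of `K` containing all
places above `l`, and `n ≥ 1`. Then some nonzero class in `H^1(GL_n(𝒪_{K,S}); 𝔽_l)` restricts to
zero on every finite subgroup of `GL_n(𝒪_{K,S})`.

The class is the composition of the determinant with a homomorphism `𝒪_{K,S}ˣ → ℤ → 𝔽_l` obtained
from the valuation at a place above `l`: this valuation is not trivial on the `S`-units, since the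
class group of `K` is finite, and it vanishes on all the roots of unity.
-/

open IsDedekindDomain CategoryTheory
open scoped NumberField MatrixGroups

namespace Pool.Agent.Results.MP_e82a76_al.UndetectedClass

/-- A nonzero homomorphism to `ℤ` gives a nonzero homomorphism to `ℤ/l` which vanishes on the
elements of finite order. -/
theorem exists_hom {G : Type} [Group G] (l : ℕ) [Fact l.Prime] (F : Additive G →+ ℤ)
    (hF : ∃ x, F x ≠ 0) :
    ∃ χ : Additive G →+ ZMod l, (∃ x, χ x ≠ 0) ∧
      ∀ g : G, IsOfFinOrder g → χ (Additive.ofMul g) = 0 := by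
  obtain ⟨d, hd⟩ := Int.subgroup_cyclic F.range
  rw [← AddSubgroup.zmultiples_eq_closure] at hd
  have hdvd : ∀ x, d ∣ F x := by
    intro x
    have h : F x ∈ F.range := ⟨x, rfl⟩
    rw [hd, AddSubgroup.mem_zmultiples_iff] at h
    obtain ⟨k, hk⟩ := h
    exact ⟨k, by rw [← hk, smul_eq_mul, mul_comm]⟩
  have hd0 : d ≠ 0 := by
    rintro rfl
    obtain ⟨x, hx⟩ := hF
    exact hx (by simpa using hdvd x)
  obtain ⟨x₀, hx₀⟩ : d ∈ F.range := by
    rw [hd]
    exact AddSubgroup.mem_zmultiples d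
  refine ⟨⟨⟨fun x => ((F x / d : ℤ) : ZMod l), by simp⟩, fun x y => ?_⟩, ⟨x₀, ?_⟩, ?_⟩
  · simp only [map_add]
    rw [Int.add_ediv_of_dvd_left (hdvd x), Int.cast_add]
  · intro h1
    simp only [AddMonoidHom.coe_mk, ZeroHom.coe_mk, hx₀,
      Int.ediv_self hd0, Int.cast_one] at h1
    exact one_ne_zero h1
  · intro g hg
    obtain ⟨m, hm, hgm⟩ := isOfFinOrder_iff_pow_eq_one.1 hg
    have h1 : m • F (Additive.ofMul g) = 0 := by
      rw [← map_nsmul, ← ofMul_pow, hgm, ofMul_one, map_zero]
    have h2 : F (Additive.ofMul g) = 0 := by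
      rcases smul_eq_zero.1 h1 with h | h
      · omega
      · exact h
    simp [h2]

section

variable (K : Type) [Field K] [NumberField K] (S : Set (HeightOneSpectrum (𝓞 K)))

/-- The valuation at `v` on the group of `S`-units, as a homomorphism to `ℤ`. -/
noncomputable def ord (v : HeightOneSpectrum (𝓞 K)) : Additive (S.integer K)ˣ →+ ℤ :=
  MonoidHom.toAdditiveLeft ((WithZero.unitsWithZeroEquiv (α := Multiplicative ℤ)).toMonoidHom.comp
    (Units.map ((v.valuation K).toMonoidWithZeroHom.toMonoidHom.comp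
      (algebraMap (S.integer K) K).toMonoidHom)))

theorem exists_ord {v : HeightOneSpectrum (𝓞 K)} (hv : v ∈ S) : ∃ x, ord K S v x ≠ 0 := by
  have hv0 : v.asIdeal ∈ nonZeroDivisors (Ideal (𝓞 K)) := mem_nonZeroDivisors_of_ne_zero v.ne_bot
  obtain ⟨h, hh, hcl⟩ : ∃ h : ℕ, 0 < h ∧ (ClassGroup.mk0 ⟨v.asIdeal, hv0⟩) ^ h = 1 :=
    ⟨Fintype.card (ClassGroup (𝓞 K)), Fintype.card_pos, pow_card_eq_one⟩
  rw [← map_pow] at hcl
  have hpr : (v.asIdeal ^ h).IsPrincipal := by
    have := (ClassGroup.mk0_eq_one_iff (I := v.asIdeal ^ h) (pow_mem hv0 h)).1 hcl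
    exact this
  obtain ⟨π, hπ⟩ := hpr.principal
  have hπ' : v.asIdeal ^ h = Ideal.span {π} := hπ
  have hπv : π ∈ v.asIdeal := by
    have h1 : π ∈ v.asIdeal ^ h := by
      rw [hπ']
      exact Ideal.mem_span_singleton_self π
    exact Ideal.pow_le_self hh.ne' h1
  have hπ0 : π ≠ 0 := by
    rintro rfl
    have h1 : v.asIdeal ^ h = ⊥ := by rw [hπ']; simp
    exact v.ne_bot (by simpa using eq_zero_of_pow_eq_zero h1)
  have hout : ∀ w : HeightOneSpectrum (𝓞 K), w ≠ v → π ∉ w.asIdeal := by
    intro w hw hπw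
    have h1 : v.asIdeal ^ h ≤ w.asIdeal := by
      rw [hπ', Ideal.span_singleton_le_iff_mem]
      exact hπw
    have h2 : v.asIdeal ≤ w.asIdeal := w.isPrime.le_of_pow_le h1
    exact hw (HeightOneSpectrum.ext ((v.isMaximal.eq_of_le w.isPrime.ne_top h2).symm))
  have hval : ∀ w : HeightOneSpectrum (𝓞 K), w ∉ S → w.valuation K (algebraMap (𝓞 K) K π) = 1 := by
    intro w hw
    rw [HeightOneSpectrum.valuation_eq_one_iff_notMem]
    exact hout w (fun h => hw (h ▸ hv))
  have hπK : algebraMap (𝓞 K) K π ≠ 0 := by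
    rw [Ne, FaithfulSMul.algebraMap_eq_zero_iff]
    exact hπ0
  let u : S.unit K := ⟨Units.mk0 _ hπK, fun w hw => hval w hw⟩
  refine ⟨Additive.ofMul (S.unitEquivUnitsInteger K u), ?_⟩
  intro h0
  have h1 : v.valuation K (algebraMap (𝓞 K) K π) < 1 := by
    rw [HeightOneSpectrum.valuation_lt_one_iff_mem]
    exact hπv
  have h2 : (WithZero.unitsWithZeroEquiv (α := Multiplicative ℤ))
      (Units.map ((v.valuation K).toMonoidWithZeroHom.toMonoidHom.comp
      (algebraMap (S.integer K) K).toMonoidHom) (S.unitEquivUnitsInteger K u)) = 1 := h0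
  rw [EmbeddingLike.map_eq_one_iff] at h2
  have h3 := congrArg Units.val h2
  exact h1.ne h3

end

theorem exists_class {G : Type} [Group G] (l : ℕ) (χ : Additive G →+ ZMod l)
    (h1 : ∃ x, χ x ≠ 0) (h2 : ∀ g : G, IsOfFinOrder g → χ (Additive.ofMul g) = 0) :
    ∃ x : groupCohomology (Rep.trivial (ZMod l) G (ZMod l)) 1, x ≠ 0 ∧
      ∀ H : Subgroup G, Finite H →
        (groupCohomology.map H.subtype (𝟙 (Rep.res H.subtype (Rep.trivial (ZMod l) G (ZMod l))))
          1).hom x = 0 := by
  let A := Rep.trivial (ZMod l) G (ZMod l)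
  let c : groupCohomology.cocycles₁ A := (groupCohomology.cocycles₁IsoOfIsTrivial A).inv χ
  have hc : ∀ g : G, c g = χ (Additive.ofMul g) := fun g => rfl
  refine ⟨groupCohomology.H1π A c, ?_, fun H hH => ?_⟩
  · intro h
    obtain ⟨x, hx⟩ := h1
    have h3 := groupCohomology.H1IsoOfIsTrivial_H1π_apply_apply c x
    rw [h] at h3
    apply hx
    have h4 : c x.toMul = 0 := by
      rw [← h3]
      simp
    rw [hc] at h4
    exact h4
  · have h3 := groupCohomology.H1π_comp_map_apply H.subtype (𝟙 (Rep.res H.subtype A)) c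
    refine h3.trans ?_
    have h4 : (groupCohomology.mapCocycles₁ H.subtype (𝟙 (Rep.res H.subtype A))) c = 0 := by
      apply Subtype.ext
      funext g
      have hg : IsOfFinOrder (g : G) := by
        have := isOfFinOrder_of_finite g
        exact Submonoid.isOfFinOrder_coe.2 this
      exact h2 _ hg
    rw [h4, map_zero]

/-- Let `K` be a number field, `l` a prime number, `n ≥ 1` and `S` a set of finite places of `K`
which contains all places above `l`. There is a nonzero class in `H^1(GL_n(𝒪_{K,S}); 𝔽_l)` whose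
restriction to every finite subgroup of `GL_n(𝒪_{K,S})` is zero. -/
theorem result (K : Type) [Field K] [NumberField K] (l : ℕ) [Fact l.Prime] (n : ℕ) (hn : 1 ≤ n)
    (S : Set (HeightOneSpectrum (𝓞 K)))
    (hS : ∀ v : HeightOneSpectrum (𝓞 K), (l : 𝓞 K) ∈ v.asIdeal → v ∈ S) :
    ∃ x : groupCohomology (Rep.trivial (ZMod l) (GL (Fin n) (S.integer K)) (ZMod l)) 1, x ≠ 0 ∧
      ∀ G : Subgroup (GL (Fin n) (S.integer K)), Finite G →
        (groupCohomology.map G.subtype (𝟙 (Rep.res G.subtype
          (Rep.trivial (ZMod l) (GL (Fin n) (S.integer K)) (ZMod l)))) 1).hom x = 0 := by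
  have hl : ∃ v : HeightOneSpectrum (𝓞 K), (l : 𝓞 K) ∈ v.asIdeal := by
    have h1 : Ideal.span {(l : 𝓞 K)} ≠ ⊤ := by
      rw [Ne, Ideal.span_singleton_eq_top]
      intro h
      have h2 := h.map (Algebra.norm ℤ)
      have h3 : Algebra.norm ℤ (l : 𝓞 K) = (l : ℤ) ^ Module.finrank ℤ (𝓞 K) := by
        have := Algebra.norm_algebraMap_of_basis (Module.Free.chooseBasis ℤ (𝓞 K)) (l : ℤ)
        rw [Module.finrank_eq_card_chooseBasisIndex, ← this]
        simp
      rw [h3] at h2
      have h4 : 0 < Module.finrank ℤ (𝓞 K) := Module.finrank_pos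
      rw [isUnit_pow_iff h4.ne', Int.isUnit_iff] at h2
      have := (Fact.out : l.Prime).two_le
      omega
    obtain ⟨M, hM, hle⟩ := Ideal.exists_le_maximal _ h1
    refine ⟨⟨M, hM.isPrime, ?_⟩, hle (Ideal.mem_span_singleton_self _)⟩
    rintro rfl
    have h5 : (l : 𝓞 K) = 0 := by
      simpa using hle (Ideal.mem_span_singleton_self (l : 𝓞 K))
    have h6 : l = 0 := by exact_mod_cast h5
    exact (Fact.out : l.Prime).ne_zero h6
  obtain ⟨v, hv⟩ := hl
  obtain ⟨u, hu⟩ := exists_ord K S (hS v hv)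
  let F : Additive (GL (Fin n) (S.integer K)) →+ ℤ :=
    (ord K S v).comp (MonoidHom.toAdditive (Matrix.GeneralLinearGroup.det (n := Fin n)))
  have hF : ∃ x, F x ≠ 0 := by
    have hne : Nonempty (Fin n) := ⟨⟨0, hn⟩⟩
    obtain ⟨g, hg⟩ := Matrix.GeneralLinearGroup.det_surjective (n := Fin n) u.toMul
    refine ⟨Additive.ofMul g, ?_⟩
    have h7 : F (Additive.ofMul g) = ord K S v (Additive.ofMul u.toMul) := by
      rw [← hg]
      rfl
    rw [h7]
    exact hu
  obtain ⟨χ, h1, h2⟩ := exists_hom l F hF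
  exact exists_class l χ h1 h2

end Pool.Agent.Results.MP_e82a76_al.UndetectedClass
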